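import Pool.Agent.Work.MP_8d5be4_exp.Free

set_option autoImplicit false

/-!
# Products of elementary Nielsen automorphisms
-/

namespace Pool.ExpConj

variable {n : ℕ}

/-- An elementary Nielsen automorphism of `F_n`: all basis elements but one are fixed, and this
one is inverted or multiplied, on the left or on the right, by another basis element or its
inverse. -/
def Elementary (s : MulAut (FreeGroup (Fin n))) : Prop :=
  ∃ i : Fin n, (∀ l : Fin n, l ≠ i → s (FreeGroup.of l) = FreeGroup.of l) ∧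
    (s (FreeGroup.of i) = (FreeGroup.of i)⁻¹ ∨
      ∃ j : Fin n, j ≠ i ∧ ∃ e : FreeGroup (Fin n), (e = FreeGroup.of j ∨ e = (FreeGroup.of j)⁻¹) ∧
        (s (FreeGroup.of i) = FreeGroup.of i * e ∨ s (FreeGroup.of i) = e * FreeGroup.of i))

/-- `a` is a product of at most `r` elementary Nielsen automorphisms. -/
def IsProd (r : ℕ) (a : MulAut (FreeGroup (Fin n))) : Prop :=
  ∃ l : List (MulAut (FreeGroup (Fin n))), l.length ≤ r ∧ (∀ s ∈ l, Elementary s) ∧ l.prod = a

theorem IsProd.mul {r r' : ℕ} {a b : MulAut (FreeGroup (Fin n))} (ha : IsProd r a)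
    (hb : IsProd r' b) : IsProd (r + r') (a * b) := by
  obtain ⟨l, h1, h2, h3⟩ := ha
  obtain ⟨l', h1', h2', h3'⟩ := hb
  refine ⟨l ++ l', by rw [List.length_append]; omega, ?_, by rw [List.prod_append, h3, h3']⟩
  intro s hs
  rcases List.mem_append.1 hs with hs | hs
  · exact h2 s hs
  · exact h2' s hs

theorem IsProd.one : IsProd 0 (1 : MulAut (FreeGroup (Fin n))) :=
  ⟨[], by simp, by simp, by simp⟩

theorem IsProd.of_el {a : MulAut (FreeGroup (Fin n))} (ha : Elementary a) : IsProd 1 a :=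
  ⟨[a], by simp, by simpa using ha, by simp⟩

theorem IsProd.pow {a : MulAut (FreeGroup (Fin n))} (ha : Elementary a) (m : ℕ) :
    IsProd m (a ^ m) := by
  induction m with
  | zero => simpa using IsProd.one
  | succ m ih => rw [pow_succ]; exact ih.mul (IsProd.of_el ha)

theorem IsProd.mono {r r' : ℕ} {a : MulAut (FreeGroup (Fin n))} (ha : IsProd r a) (h : r ≤ r') :
    IsProd r' a := by
  obtain ⟨l, h1, h2, h3⟩ := ha
  exact ⟨l, le_trans h1 h, h2, h3⟩

/-- The images under `x_i ↦ w`, the other basis elements fixed. -/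
def upd (i : Fin n) (w : FreeGroup (Fin n)) : FreeGroup (Fin n) →* FreeGroup (Fin n) :=
  FreeGroup.lift fun l => if l = i then w else FreeGroup.of l

theorem upd_self (i : Fin n) (w : FreeGroup (Fin n)) : upd i w (FreeGroup.of i) = w := by
  simp [upd]

theorem upd_ne (i l : Fin n) (w : FreeGroup (Fin n)) (h : l ≠ i) :
    upd i w (FreeGroup.of l) = FreeGroup.of l := by
  simp [upd, h]

/-- `x_i ↦ x_i x_j`. -/
def rmul (i j : Fin n) (hij : j ≠ i) : MulAut (FreeGroup (Fin n)) :=
  MonoidHom.toMulEquiv (upd i (FreeGroup.of i * FreeGroup.of j))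
    (upd i (FreeGroup.of i * (FreeGroup.of j)⁻¹))
    (by
      refine FreeGroup.ext_hom _ _ fun l => ?_
      by_cases h : l = i
      · subst h; simp [upd_self, upd_ne _ _ _ hij]
      · simp [upd_ne _ _ _ h])
    (by
      refine FreeGroup.ext_hom _ _ fun l => ?_
      by_cases h : l = i
      · subst h; simp [upd_self, upd_ne _ _ _ hij]
      · simp [upd_ne _ _ _ h])

/-- `x_i ↦ x_j x_i`. -/
def lmul (i j : Fin n) (hij : j ≠ i) : MulAut (FreeGroup (Fin n)) :=
  MonoidHom.toMulEquiv (upd i (FreeGroup.of j * FreeGroup.of i))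
    (upd i ((FreeGroup.of j)⁻¹ * FreeGroup.of i))
    (by
      refine FreeGroup.ext_hom _ _ fun l => ?_
      by_cases h : l = i
      · subst h; simp [upd_self, upd_ne _ _ _ hij]
      · simp [upd_ne _ _ _ h])
    (by
      refine FreeGroup.ext_hom _ _ fun l => ?_
      by_cases h : l = i
      · subst h; simp [upd_self, upd_ne _ _ _ hij]
      · simp [upd_ne _ _ _ h])

/-- `x_i ↦ x_i⁻¹`. -/
def inver (i : Fin n) : MulAut (FreeGroup (Fin n)) :=
  MonoidHom.toMulEquiv (upd i (FreeGroup.of i)⁻¹) (upd i (FreeGroup.of i)⁻¹)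
    (by
      refine FreeGroup.ext_hom _ _ fun l => ?_
      by_cases h : l = i
      · subst h; simp [upd_self]
      · simp [upd_ne _ _ _ h])
    (by
      refine FreeGroup.ext_hom _ _ fun l => ?_
      by_cases h : l = i
      · subst h; simp [upd_self]
      · simp [upd_ne _ _ _ h])

theorem rmul_self (i j : Fin n) (hij : j ≠ i) :
    rmul i j hij (FreeGroup.of i) = FreeGroup.of i * FreeGroup.of j := upd_self _ _

theorem rmul_ne (i j l : Fin n) (hij : j ≠ i) (h : l ≠ i) :
    rmul i j hij (FreeGroup.of l) = FreeGroup.of l := upd_ne _ _ _ h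

theorem lmul_self (i j : Fin n) (hij : j ≠ i) :
    lmul i j hij (FreeGroup.of i) = FreeGroup.of j * FreeGroup.of i := upd_self _ _

theorem lmul_ne (i j l : Fin n) (hij : j ≠ i) (h : l ≠ i) :
    lmul i j hij (FreeGroup.of l) = FreeGroup.of l := upd_ne _ _ _ h

/-- `x_i ↦ x_i x_j⁻¹`. -/
def rinv (i j : Fin n) (hij : j ≠ i) : MulAut (FreeGroup (Fin n)) := (rmul i j hij)⁻¹

theorem rinv_self (i j : Fin n) (hij : j ≠ i) :
    rinv i j hij (FreeGroup.of i) = FreeGroup.of i * (FreeGroup.of j)⁻¹ := upd_self _ _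

theorem rinv_ne (i j l : Fin n) (hij : j ≠ i) (h : l ≠ i) :
    rinv i j hij (FreeGroup.of l) = FreeGroup.of l := upd_ne _ _ _ h

theorem inver_self (i : Fin n) : inver i (FreeGroup.of i) = (FreeGroup.of i)⁻¹ := upd_self _ _

theorem inver_ne (i l : Fin n) (h : l ≠ i) :
    inver i (FreeGroup.of l) = FreeGroup.of l := upd_ne _ _ _ h

theorem el_rmul (i j : Fin n) (hij : j ≠ i) : Elementary (rmul i j hij) :=
  ⟨i, fun l hl => rmul_ne i j l hij hl, Or.inr ⟨j, hij, _, Or.inl rfl, Or.inl (rmul_self i j hij)⟩⟩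

theorem el_rinv (i j : Fin n) (hij : j ≠ i) : Elementary (rinv i j hij) :=
  ⟨i, fun l hl => rinv_ne i j l hij hl,
    Or.inr ⟨j, hij, _, Or.inr rfl, Or.inl (rinv_self i j hij)⟩⟩

theorem el_lmul (i j : Fin n) (hij : j ≠ i) : Elementary (lmul i j hij) :=
  ⟨i, fun l hl => lmul_ne i j l hij hl, Or.inr ⟨j, hij, _, Or.inl rfl, Or.inr (lmul_self i j hij)⟩⟩

theorem el_inver (i : Fin n) : Elementary (inver i) :=
  ⟨i, fun l hl => inver_ne i l hl, Or.inl (inver_self i)⟩

theorem lmul_pow_self (i j : Fin n) (hij : j ≠ i) (m : ℕ) :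
    (lmul i j hij ^ m) (FreeGroup.of i) = FreeGroup.of j ^ m * FreeGroup.of i := by
  induction m with
  | zero => simp
  | succ m ih =>
    rw [pow_succ', MulAut.mul_apply, ih, map_mul, map_pow, lmul_self, lmul_ne i j j hij hij,
      ← mul_assoc, ← pow_succ]

theorem lmul_pow_ne (i j l : Fin n) (hij : j ≠ i) (h : l ≠ i) (m : ℕ) :
    (lmul i j hij ^ m) (FreeGroup.of l) = FreeGroup.of l := by
  induction m with
  | zero => simp
  | succ m ih => rw [pow_succ', MulAut.mul_apply, ih, lmul_ne i j l hij h]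

theorem rinv_pow_self (i j : Fin n) (hij : j ≠ i) (m : ℕ) :
    (rinv i j hij ^ m) (FreeGroup.of i) = FreeGroup.of i * (FreeGroup.of j)⁻¹ ^ m := by
  induction m with
  | zero => simp
  | succ m ih =>
    rw [pow_succ', MulAut.mul_apply, ih, map_mul, map_pow, map_inv, rinv_self,
      rinv_ne i j j hij hij, mul_assoc, ← pow_succ']

theorem rinv_pow_ne (i j l : Fin n) (hij : j ≠ i) (h : l ≠ i) (m : ℕ) :
    (rinv i j hij ^ m) (FreeGroup.of l) = FreeGroup.of l := by
  induction m with
  | zero => simp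
  | succ m ih => rw [pow_succ', MulAut.mul_apply, ih, rinv_ne i j l hij h]

/-- The product of the inversions of the basis elements with index at least `m`. -/
theorem exists_inver (m : ℕ) (hm : m ≤ n) : ∃ s : MulAut (FreeGroup (Fin n)),
    IsProd (n - m) s ∧ (∀ i : Fin n, i.val < m → s (FreeGroup.of i) = FreeGroup.of i) ∧
      (∀ i : Fin n, m ≤ i.val → s (FreeGroup.of i) = (FreeGroup.of i)⁻¹) := by
  obtain ⟨d, hd⟩ : ∃ d, n - m = d := ⟨_, rfl⟩
  induction d generalizing m with
  | zero =>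
    refine ⟨1, IsProd.one.mono (Nat.zero_le _), fun i _ => rfl, ?_⟩
    intro i hi
    have := i.isLt
    omega
  | succ d ih =>
    obtain ⟨s, h1, h2, h3⟩ := ih (m + 1) (by omega) (by omega)
    have hmn : m < n := by omega
    refine ⟨inver ⟨m, hmn⟩ * s, ?_, ?_, ?_⟩
    · refine ((IsProd.of_el (el_inver _)).mul h1).mono ?_
      omega
    · intro i hi
      rw [MulAut.mul_apply, h2 i (by omega), inver_ne]
      intro e
      rw [e] at hi
      exact absurd hi (lt_irrefl _)
    · intro i hi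
      rcases Nat.eq_or_lt_of_le hi with hi' | hi'
      · have e : i = ⟨m, hmn⟩ := Fin.ext hi'.symm
        rw [MulAut.mul_apply, h2 i (by omega), e, inver_self]
      · rw [MulAut.mul_apply, h3 i hi', map_inv, inver_ne]
        intro e
        rw [e] at hi'
        exact absurd hi' (lt_irrefl _)

theorem ne6 (h : 6 ≤ n) (i j : Fin 6) (hij : j ≠ i) : Fin.castLE h j ≠ Fin.castLE h i :=
  fun e => hij (Fin.castLE_inj.1 e)

theorem ne_hi (h : 6 ≤ n) (i : Fin n) (hi : 6 ≤ i.val) (j : Fin 6) : i ≠ Fin.castLE h j := by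
  intro e
  have : i.val = (Fin.castLE h j).val := by rw [e]
  simp at this
  omega

theorem theta_prod (h : 6 ≤ n) (N : ℕ) : theta h N =
    rmul (Fin.castLE h 3) (Fin.castLE h 1) (ne6 h _ _ (by decide)) *
    (lmul (Fin.castLE h 3) (Fin.castLE h 2) (ne6 h _ _ (by decide)) ^ (N + 1) *
    (rmul (Fin.castLE h 2) (Fin.castLE h 3) (ne6 h _ _ (by decide)) *
    (rinv (Fin.castLE h 3) (Fin.castLE h 2) (ne6 h _ _ (by decide)) *
    rmul (Fin.castLE h 1) (Fin.castLE h 0) (ne6 h _ _ (by decide))))) := by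
  have q : ∀ i j : Fin 6, i ≠ j → Fin.castLE h i ≠ Fin.castLE h j :=
    fun i j hij e => hij (Fin.castLE_inj.1 e)
  refine aut_ext6 h _ _ ?_ ?_
  · intro j
    rw [theta_L]
    simp only [MulAut.mul_apply]
    obtain ⟨m, hm⟩ : ∃ m, m = N + 1 := ⟨_, rfl⟩
    rw [← hm]
    fin_cases j
    · simp [thW, L, rmul_ne, lmul_pow_ne, rinv_ne, q]
    · simp [thW, L, rmul_self, rmul_ne, lmul_pow_ne, rinv_ne, q]
    · simp [thW, L, rmul_self, rmul_ne, lmul_pow_ne, lmul_pow_self, rinv_ne, q, mul_assoc]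
      rw [hm, pow_succ' _ (N + 1), mul_assoc]
    · simp [thW, L, rmul_self, rmul_ne, lmul_pow_ne, lmul_pow_self, rinv_self, rinv_ne, q,
        mul_assoc]
    · simp [thW, L, rmul_ne, lmul_pow_ne, rinv_ne, q]
    · simp [thW, L, rmul_ne, lmul_pow_ne, rinv_ne, q]
  · intro i hi
    rw [theta_hi h N i hi]
    simp [rmul_ne, lmul_pow_ne, rinv_ne, ne_hi h i hi]

theorem theta_isProd (h : 6 ≤ n) (N : ℕ) : IsProd (N + 5) (theta h N) := by
  rw [theta_prod]
  refine IsProd.mono ((IsProd.of_el (el_rmul _ _ _)).mul ((IsProd.pow (el_lmul _ _ _) _).mul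
    ((IsProd.of_el (el_rmul _ _ _)).mul ((IsProd.of_el (el_rinv _ _ _)).mul
      (IsProd.of_el (el_rmul _ _ _)))))) ?_
  omega

theorem eta_isProd (h : 6 ≤ n) (N c : ℕ) : IsProd (2 * N + c + n - 2) (eta h N c) := by
  obtain ⟨s, s1, s2, s3⟩ := exists_inver (n := n) 6 h
  have q : ∀ i j : Fin 6, i ≠ j → Fin.castLE h i ≠ Fin.castLE h j :=
    fun i j hij e => hij (Fin.castLE_inj.1 e)
  have e : eta h N c =
    rmul (Fin.castLE h 5) (Fin.castLE h 1) (ne6 h _ _ (by decide)) *
    (rinv (Fin.castLE h 5) (Fin.castLE h 0) (ne6 h _ _ (by decide)) ^ c *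
    (lmul (Fin.castLE h 5) (Fin.castLE h 4) (ne6 h _ _ (by decide)) ^ (2 * N + 1) *
    (rmul (Fin.castLE h 4) (Fin.castLE h 5) (ne6 h _ _ (by decide)) *
    (rinv (Fin.castLE h 5) (Fin.castLE h 4) (ne6 h _ _ (by decide)) * s)))) := by
    refine aut_ext6 h _ _ ?_ ?_
    · intro j
      rw [eta_L]
      have hs : s (L h j) = L h j := s2 _ (by simp)
      simp only [MulAut.mul_apply, hs]
      obtain ⟨m, hm⟩ : ∃ m, m = 2 * N + 1 := ⟨_, rfl⟩
      rw [← hm]
      fin_cases j
      · simp [etW, L, rmul_ne, lmul_pow_ne, rinv_ne, rinv_pow_ne, q]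
      · simp [etW, L, rmul_ne, lmul_pow_ne, rinv_ne, rinv_pow_ne, q]
      · simp [etW, L, rmul_ne, lmul_pow_ne, rinv_ne, rinv_pow_ne, q]
      · simp [etW, L, rmul_ne, lmul_pow_ne, rinv_ne, rinv_pow_ne, q]
      · simp [etW, L, rmul_self, rmul_ne, lmul_pow_self, lmul_pow_ne, rinv_ne, rinv_pow_self,
          rinv_pow_ne, q, mul_assoc]
        rw [hm, show 2 * N + 2 = (2 * N + 1) + 1 by ring, pow_succ' _ (2 * N + 1), mul_assoc]
      · simp [etW, L, rmul_self, rmul_ne, lmul_pow_self, lmul_pow_ne, rinv_self, rinv_ne,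
          rinv_pow_self, rinv_pow_ne, q, mul_assoc]
    · intro i hi
      rw [eta_hi h N c i hi]
      simp only [MulAut.mul_apply, s3 i hi]
      simp [rmul_ne, lmul_pow_ne, rinv_ne, rinv_pow_ne, ne_hi h i hi]
  rw [e]
  refine IsProd.mono ((IsProd.of_el (el_rmul _ _ _)).mul ((IsProd.pow (el_rinv _ _ _) _).mul
    ((IsProd.pow (el_lmul _ _ _) _).mul ((IsProd.of_el (el_rmul _ _ _)).mul
      ((IsProd.of_el (el_rinv _ _ _)).mul s1))))) ?_
  omega

theorem al_isProd (h : 6 ≤ n) (N c : ℕ) : IsProd (3 * N + c + n + 4) (al h N c) := by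
  refine IsProd.mono ((theta_isProd h N).mul (eta_isProd h N (c + 1))) ?_
  omega

/-- The norm: the maximal length of the images of the basis elements. -/
def nrm (a : MulAut (FreeGroup (Fin n))) : ℕ :=
  Finset.univ.sup fun i : Fin n => (FreeGroup.toWord (a (FreeGroup.of i))).length

theorem norm_pow_le (x : FreeGroup (Fin n)) (m : ℕ) : (x ^ m).norm ≤ m * x.norm := by
  induction m with
  | zero => simp
  | succ m ih =>
    rw [pow_succ]
    refine le_trans (FreeGroup.norm_mul_le _ _) ?_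
    rw [Nat.succ_mul]
    omega

theorem nrm_al (h : 6 ≤ n) (N c : ℕ) (hN : 1 ≤ N) : nrm (al h N c) ≤ 2 * N + 4 + c := by
  refine Finset.sup_le fun i _ => ?_
  change (al h N c (FreeGroup.of i)).norm ≤ _
  refine cases6 h (P := fun i => (al h N c (FreeGroup.of i)).norm ≤ 2 * N + 4 + c) ?_ ?_ i
  · intro j
    change (al h N c (L h j)).norm ≤ _
    have n1 : ∀ j : Fin 6, (L h j).norm = 1 := fun j => FreeGroup.norm_of _
    rw [al_L]
    fin_cases j
    · change (L h 0).norm ≤ _
      rw [n1]; omega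
    · change (L h 1 * L h 0).norm ≤ _
      refine le_trans (FreeGroup.norm_mul_le _ _) ?_
      rw [n1, n1]; omega
    · change (L h 2 ^ (N + 2) * L h 3 * L h 1).norm ≤ _
      have e1 := FreeGroup.norm_mul_le (L h 2 ^ (N + 2) * L h 3) (L h 1)
      have e2 := FreeGroup.norm_mul_le (L h 2 ^ (N + 2)) (L h 3)
      have e3 := norm_pow_le (L h 2) (N + 2)
      rw [n1] at e1 e2 e3
      omega
    · change ((L h 2)⁻¹).norm ≤ _
      rw [FreeGroup.norm_inv_eq, n1]; omega
    · change (L h 4 ^ (2 * N + 2) * L h 5 * L h 1 * (L h 0)⁻¹ ^ c).norm ≤ _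
      have e0 := FreeGroup.norm_mul_le (L h 4 ^ (2 * N + 2) * L h 5 * L h 1) ((L h 0)⁻¹ ^ c)
      have e1 := FreeGroup.norm_mul_le (L h 4 ^ (2 * N + 2) * L h 5) (L h 1)
      have e2 := FreeGroup.norm_mul_le (L h 4 ^ (2 * N + 2)) (L h 5)
      have e3 := norm_pow_le (L h 4) (2 * N + 2)
      have e4 := norm_pow_le (L h 0)⁻¹ c
      rw [FreeGroup.norm_inv_eq, n1] at e4
      rw [n1] at e1 e2 e3
      omega
    · change ((L h 4)⁻¹).norm ≤ _
      rw [FreeGroup.norm_inv_eq, n1]; omega
  · intro i hi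
    rw [al_hi h N c i hi, FreeGroup.norm_inv_eq, FreeGroup.norm_of]
    omega

theorem elementary_norm {s : MulAut (FreeGroup (Fin n))} (hs : Elementary s)
    (g : FreeGroup (Fin n)) : (s g).norm ≤ 2 * g.norm := by
  obtain ⟨i, h1, h2⟩ := hs
  have hgen : ∀ l : Fin n, (s (FreeGroup.of l)).norm ≤ 2 := by
    intro l
    by_cases hl : l = i
    · subst hl
      rcases h2 with h2 | ⟨j, _, e, he, h2⟩
      · rw [h2, FreeGroup.norm_inv_eq, FreeGroup.norm_of]; omega
      · have hen : e.norm = 1 := by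
          rcases he with he | he
          · rw [he, FreeGroup.norm_of]
          · rw [he, FreeGroup.norm_inv_eq, FreeGroup.norm_of]
        rcases h2 with h2 | h2
        · rw [h2]
          refine le_trans (FreeGroup.norm_mul_le _ _) ?_
          rw [hen, FreeGroup.norm_of]
        · rw [h2]
          refine le_trans (FreeGroup.norm_mul_le _ _) ?_
          rw [hen, FreeGroup.norm_of]
    · rw [h1 l hl, FreeGroup.norm_of]; omega
  have hl : ∀ l : List (Fin n × Bool), (s (FreeGroup.mk l)).norm ≤ 2 * l.length := by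
    intro l
    induction l with
    | nil =>
      have : (FreeGroup.mk ([] : List (Fin n × Bool))) = 1 := rfl
      rw [this, map_one]; simp
    | cons a l ih =>
      have e : FreeGroup.mk (a :: l) = FreeGroup.mk [a] * FreeGroup.mk l := by
        rw [FreeGroup.mul_mk]; rfl
      rw [e, map_mul, List.length_cons]
      refine le_trans (FreeGroup.norm_mul_le _ _) ?_
      have h3 : (s (FreeGroup.mk [a])).norm ≤ 2 := by
        obtain ⟨j, b⟩ := a
        cases b with
        | true => exact hgen j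
        | false =>
          have : FreeGroup.mk [(j, false)] = (FreeGroup.of j)⁻¹ := by
            simp [FreeGroup.of, FreeGroup.inv_mk, FreeGroup.invRev]
          rw [this, map_inv, FreeGroup.norm_inv_eq]
          exact hgen j
      omega
  have := hl (FreeGroup.toWord g)
  rwa [FreeGroup.mk_toWord] at this

theorem IsProd.norm_le {r : ℕ} {a : MulAut (FreeGroup (Fin n))} (ha : IsProd r a)
    (g : FreeGroup (Fin n)) : (a g).norm ≤ 2 ^ r * g.norm := by
  obtain ⟨l, h1, h2, h3⟩ := ha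
  have key : (a g).norm ≤ 2 ^ l.length * g.norm := by
    subst h3
    clear h1
    induction l with
    | nil => simp
    | cons s l ih =>
      rw [List.prod_cons, MulAut.mul_apply, List.length_cons]
      refine le_trans (elementary_norm (h2 s (by simp)) _) ?_
      have := ih (fun s hs => h2 s (by simp [hs]))
      rw [pow_succ]
      calc 2 * (l.prod g).norm ≤ 2 * (2 ^ l.length * g.norm) := Nat.mul_le_mul_left _ this
        _ = 2 ^ l.length * 2 * g.norm := by ring
  refine le_trans key ?_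
  exact Nat.mul_le_mul_right _ (Nat.pow_le_pow_right (by norm_num) h1)

end Pool.ExpConj
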