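import Pool.Agent.Work.MP_8d5be4_exp.Main

set_option autoImplicit false

/-!
# Every conjugator is long
-/

namespace Pool.ExpConj

variable {n : ℕ}

theorem sum_two (h : 6 ≤ n) (f : Fin n → ℤ) (a b : Fin 6) (hab : a ≠ b)
    (h1 : ∀ j : Fin 6, j ≠ a → j ≠ b → f (Fin.castLE h j) = 0)
    (h2 : ∀ i : Fin n, 6 ≤ i.val → f i = 0) :
    ∑ i, f i = f (Fin.castLE h a) + f (Fin.castLE h b) := by
  refine Fintype.sum_eq_add (Fin.castLE h a) (Fin.castLE h b) ?_ ?_
  · intro e
    exact hab (Fin.castLE_inj.1 e)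
  · intro i hi
    refine cases6 h (P := fun i => (i ≠ Fin.castLE h a ∧ i ≠ Fin.castLE h b) → f i = 0)
      ?_ ?_ i hi
    · intro j hj
      exact h1 j (fun e => hj.1 (by rw [e])) (fun e => hj.2 (by rw [e]))
    · intro i hi _
      exact h2 i hi

/-- Two integer `2 × 2` matrices with product `1` have determinant `± 1`. -/
theorem det_unit (a b c d a' b' c' d' : ℤ) (e1 : a' * a + b' * c = 1) (e2 : a' * b + b' * d = 0)
    (_e3 : c' * a + d' * c = 0) (e4 : c' * b + d' * d = 1) :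
    a * d - b * c = 1 ∨ a * d - b * c = -1 := by
  have e : (a * d - b * c) * (a' * d' - b' * c') =
      (a' * a + b' * c) * (c' * b + d' * d) - (a' * b + b' * d) * (c' * a + d' * c) := by ring
  have : (a * d - b * c) * (a' * d' - b' * c') = 1 := by
    rw [e, e1, e2, e4]; ring
  exact Int.isUnit_iff.1 (IsUnit.of_mul_eq_one _ this)

/-- `|s - p| ≤ 2 < N` and `N ∣ s - p` give `s = p`. -/
theorem sign_eq (N s p : ℤ) (hN : 3 ≤ N) (hs : s = 1 ∨ s = -1) (hp : p = 1 ∨ p = -1)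
    (hd : N ∣ s - p) : s = p := by
  by_contra hne
  have h1 : s - p ≠ 0 := sub_ne_zero.2 hne
  have h2 := Int.natAbs_le_of_dvd_ne_zero hd h1
  rcases hs with hs | hs <;> rcases hp with hp | hp <;> subst hs hp <;> omega

theorem main (h : 6 ≤ n) (k : ℕ) (hk : 1 ≤ k) (c : MulAut (FreeGroup (Fin n)))
    (g : FreeGroup (Fin n))
    (hc : c⁻¹ * al h (4 * k) 0 * c = MulAut.conj g * al h (4 * k) (2 * k)) :
    ∃ i : Fin n, (4 * k + 1) ^ k ≤ (FreeGroup.toWord (c (FreeGroup.of i))).length := by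
  -- the two intertwining relations
  have I1 : ∀ w, V (al h (4 * k) 0 (c w)) = V (c (al h (4 * k) (2 * k) w)) := by
    intro w
    have e : al h (4 * k) 0 * c = c * (MulAut.conj g * al h (4 * k) (2 * k)) := by
      rw [← hc]; group
    have e1 := DFunLike.congr_fun e w
    rw [MulAut.mul_apply, MulAut.mul_apply, MulAut.mul_apply, MulAut.conj_apply] at e1
    rw [e1, map_mul, map_mul, V_mul, V_mul, map_inv, V_inv]
    abel
  have I2 : ∀ w, V (al h (4 * k) (2 * k) (c⁻¹ w)) = V (c⁻¹ (al h (4 * k) 0 w)) := by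
    intro w
    have e : c⁻¹ * al h (4 * k) 0 = MulAut.conj g * al h (4 * k) (2 * k) * c⁻¹ := by
      rw [← hc]; group
    have e1 := DFunLike.congr_fun e w
    rw [MulAut.mul_apply, MulAut.mul_apply, MulAut.mul_apply, MulAut.conj_apply] at e1
    rw [e1, V_mul, V_mul, V_inv]
    abel
  have R := rel_of h (4 * k) 0 (2 * k) c I1
  have R' := rel_of h (4 * k) (2 * k) 0 c⁻¹ I2
  have hN : (1 : ℤ) ≤ ((4 * k : ℕ) : ℤ) := by push_cast; omega
  have hN3 : (3 : ℤ) ≤ ((4 * k : ℕ) : ℤ) := by push_cast; omega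
  have hN6 : (3 : ℤ) ≤ 2 * ((4 * k : ℕ) : ℤ) := by push_cast; omega
  simp only [Nat.cast_zero] at R
  -- `γ γ⁻¹ = 1` on the abelianization
  have P : ∀ (w : FreeGroup (Fin n)) (i : Fin n),
      V w i = ∑ k, V (c⁻¹ w) k * V (c (FreeGroup.of k)) i := by
    intro w i
    have e := V_hom c.toMonoidHom (c⁻¹ w)
    have e1 : c.toMonoidHom (c⁻¹ w) = w := by
      change c (c⁻¹ w) = w
      rw [← MulAut.mul_apply, mul_inv_cancel, MulAut.one_apply]
    rw [e1] at e
    have e2 := congrFun e i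
    rw [Finset.sum_apply] at e2
    exact e2
  obtain ⟨a1, a2, a3, a4, a5, a6⟩ := R.A_lo hN
  obtain ⟨b1, b2, b3, b4, b5, b6⟩ := R.B_lo hN
  obtain ⟨x4, x5, y4, y5, xy6, y2, x2, ⟨z1, hz1⟩, ⟨z2, hz2⟩⟩ := R.XY hN
  obtain ⟨x2', x3', y2', y3', xy6', y4', x4', ⟨z3, hz3⟩, ⟨z4, hz4⟩⟩ := R.XY' hN
  obtain ⟨a1s, a2s, a3s, a4s, a5s, a6s⟩ := R'.A_lo hN
  obtain ⟨x4s, x5s, y4s, y5s, xy6s, -⟩ := R'.XY hN
  obtain ⟨x2s', x3s', y2s', y3s', xy6s'⟩ := R'.XY0 hN
  -- `p = ± 1`
  have hp : V (c (L h 0)) (Fin.castLE h 0) = 1 ∨ V (c (L h 0)) (Fin.castLE h 0) = -1 := by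
    have e := P (L h 0) (Fin.castLE h 0)
    rw [sum_two h _ 0 1 (by decide) (by
        intro j h0 h1
        fin_cases j
        · exact absurd rfl h0
        · exact absurd rfl h1
        · change V (c⁻¹ (L h 0)) (Fin.castLE h 2) * _ = 0
          rw [a2s, zero_mul]
        · change V (c⁻¹ (L h 0)) (Fin.castLE h 3) * _ = 0
          rw [a3s, zero_mul]
        · change V (c⁻¹ (L h 0)) (Fin.castLE h 4) * _ = 0
          rw [a4s, zero_mul]
        · change V (c⁻¹ (L h 0)) (Fin.castLE h 5) * _ = 0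
          rw [a5s, zero_mul]) (by
        intro i hi
        rw [a6s i hi, zero_mul]), a1s, V_L_lo] at e
    simp only [zero_mul, add_zero, if_true] at e
    exact Int.isUnit_iff.1 (IsUnit.of_mul_eq_one _ (by rw [mul_comm]; exact e.symm))
  -- the determinant of the first hyperbolic block
  have Q : ∀ (w : FreeGroup (Fin n)), V (c⁻¹ w) (Fin.castLE h 4) = 0 →
      V (c⁻¹ w) (Fin.castLE h 5) = 0 → (∀ i : Fin n, 6 ≤ i.val → V (c⁻¹ w) i = 0) →
      ∀ i : Fin n, V (c (L h 0)) i = 0 → V (c (L h 1)) i = 0 →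
      V w i = V (c⁻¹ w) (Fin.castLE h 2) * V (c (L h 2)) i +
        V (c⁻¹ w) (Fin.castLE h 3) * V (c (L h 3)) i := by
    intro w w4 w5 w6 i i0 i1
    rw [P w i]
    refine sum_two h _ 2 3 (by decide) ?_ ?_
    · intro j h0 h1
      fin_cases j
      · change _ * V (c (L h 0)) i = 0
        rw [i0, mul_zero]
      · change _ * V (c (L h 1)) i = 0
        rw [i1, mul_zero]
      · exact absurd rfl h0
      · exact absurd rfl h1
      · change V (c⁻¹ w) (Fin.castLE h 4) * _ = 0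
        rw [w4, zero_mul]
      · change V (c⁻¹ w) (Fin.castLE h 5) * _ = 0
        rw [w5, zero_mul]
    · intro j hj
      rw [w6 j hj, zero_mul]
  have Q' : ∀ (w : FreeGroup (Fin n)), V (c⁻¹ w) (Fin.castLE h 2) = 0 →
      V (c⁻¹ w) (Fin.castLE h 3) = 0 → (∀ i : Fin n, 6 ≤ i.val → V (c⁻¹ w) i = 0) →
      ∀ i : Fin n, V (c (L h 0)) i = 0 → V (c (L h 1)) i = 0 →
      V w i = V (c⁻¹ w) (Fin.castLE h 4) * V (c (L h 4)) i +
        V (c⁻¹ w) (Fin.castLE h 5) * V (c (L h 5)) i := by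
    intro w w4 w5 w6 i i0 i1
    rw [P w i]
    refine sum_two h _ 4 5 (by decide) ?_ ?_
    · intro j h0 h1
      fin_cases j
      · change _ * V (c (L h 0)) i = 0
        rw [i0, mul_zero]
      · change _ * V (c (L h 1)) i = 0
        rw [i1, mul_zero]
      · change V (c⁻¹ w) (Fin.castLE h 2) * _ = 0
        rw [w4, zero_mul]
      · change V (c⁻¹ w) (Fin.castLE h 3) * _ = 0
        rw [w5, zero_mul]
      · exact absurd rfl h0
      · exact absurd rfl h1
    · intro j hj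
      rw [w6 j hj, zero_mul]
  have D1 := det_unit _ _ _ _ _ _ _ _
    (((Q (L h 2) x4s x5s (fun i hi => (xy6s i hi).1) (Fin.castLE h 2) a2 b2).symm).trans
      (by rw [V_L_lo]; rfl))
    (((Q (L h 2) x4s x5s (fun i hi => (xy6s i hi).1) (Fin.castLE h 3) a3 b3).symm).trans
      (by rw [V_L_lo]; rfl))
    (((Q (L h 3) y4s y5s (fun i hi => (xy6s i hi).2) (Fin.castLE h 2) a2 b2).symm).trans
      (by rw [V_L_lo]; rfl))
    (((Q (L h 3) y4s y5s (fun i hi => (xy6s i hi).2) (Fin.castLE h 3) a3 b3).symm).trans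
      (by rw [V_L_lo]; rfl))
  have D2 := det_unit _ _ _ _ _ _ _ _
    (((Q' (L h 4) x2s' x3s' (fun i hi => (xy6s' i hi).1) (Fin.castLE h 4) a4 b4).symm).trans
      (by rw [V_L_lo]; rfl))
    (((Q' (L h 4) x2s' x3s' (fun i hi => (xy6s' i hi).1) (Fin.castLE h 5) a5 b5).symm).trans
      (by rw [V_L_lo]; rfl))
    (((Q' (L h 5) y2s' y3s' (fun i hi => (xy6s' i hi).2) (Fin.castLE h 4) a4 b4).symm).trans
      (by rw [V_L_lo]; rfl))
    (((Q' (L h 5) y2s' y3s' (fun i hi => (xy6s' i hi).2) (Fin.castLE h 5) a5 b5).symm).trans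
      (by rw [V_L_lo]; rfl))
  -- names
  have hN4 : ((4 * k : ℕ) : ℤ) = 4 * (k : ℤ) := by push_cast; ring
  have hc2 : ((2 * k : ℕ) : ℤ) = 2 * (k : ℤ) := by push_cast; ring
  rw [hc2] at hz3
  clear R R' I1 I2 P Q Q' hc
  generalize ((4 * k : ℕ) : ℤ) = N at *
  rw [y2, x2] at D1
  rw [y4', x4'] at D2
  generalize hX3 : V (c (L h 2)) (Fin.castLE h 3) = v at *
  generalize hY3 : V (c (L h 3)) (Fin.castLE h 3) = y at *
  generalize hX5 : V (c (L h 4)) (Fin.castLE h 5) = v' at *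
  generalize hY5 : V (c (L h 5)) (Fin.castLE h 5) = y' at *
  generalize hA0 : V (c (L h 0)) (Fin.castLE h 0) = p at *
  generalize hB0 : V (c (L h 1)) (Fin.castLE h 0) = i0 at *
  obtain ⟨s, j, hs, hu, hv, hj⟩ := pell N hN3 (v + y) v (by
    rcases D1 with D | D
    · left; rw [← D]; ring
    · right; rw [← D]; ring)
  obtain ⟨s', j', hs', hu', hv', hj'⟩ := pell (2 * N) hN6 (v' + y') v' (by
    rcases D2 with D | D
    · left; rw [← D]; ring
    · right; rw [← D]; ring)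
  have sp : s = p := by
    refine sign_eq N s p hN3 hs hp ?_
    obtain ⟨t, ht⟩ := hu
    exact ⟨z2 - t, by linear_combination hz2 - ht⟩
  have sp' : s' = p := by
    refine sign_eq (2 * N) s' p hN6 hs' hp ?_
    obtain ⟨t, ht⟩ := hu'
    exact ⟨z4 - t, by linear_combination hz4 - ht⟩
  subst sp
  subst sp'
  -- the congruence between the exponents
  have hcong : ∃ t : ℤ, j - j' = 2 * (k : ℤ) + 4 * (k : ℤ) * t := by
    obtain ⟨t, ht⟩ := hv
    obtain ⟨t', ht'⟩ := hv'
    have hsq : s' * s' = 1 := by rcases hs' with e | e <;> rw [e] <;> norm_num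
    refine ⟨s' * (z1 - t - 2 * z3 + 2 * t'), ?_⟩
    have e1 : s' * (j - j') = 2 * (k : ℤ) * s' + N * (z1 - t - 2 * z3 + 2 * t') := by
      linear_combination hz1 - ht - hz3 + ht'
    have e2 : j - j' = s' * (s' * (j - j')) := by
      rw [← mul_assoc, hsq, one_mul]
    rw [e2, e1, hN4]
    linear_combination 2 * (k : ℤ) * hsq
  obtain ⟨t, ht⟩ := hcong
  have hbig : k ≤ j.natAbs ∨ k ≤ j'.natAbs := by
    by_contra hcon
    push Not at hcon
    obtain ⟨h1, h2⟩ := hcon
    have h3 : |j - j'| < 2 * (k : ℤ) := by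
      have := abs_sub j j'
      have e1 : |j| = (j.natAbs : ℤ) := Int.abs_eq_natAbs j
      have e2 : |j'| = (j'.natAbs : ℤ) := Int.abs_eq_natAbs j'
      omega
    rw [ht] at h3
    have hk0 : (0 : ℤ) < k := by omega
    have h4 : 2 * (k : ℤ) ≤ |2 * (k : ℤ) + 4 * k * t| := by
      rcases le_or_gt 0 t with ht0 | ht0
      · have : 0 ≤ 4 * (k : ℤ) * t := by positivity
        exact le_trans (by linarith) (le_abs_self _)
      · have ht1 : t ≤ -1 := by omega
        have : 4 * (k : ℤ) * t ≤ 4 * (k : ℤ) * (-1) := by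
          apply mul_le_mul_of_nonneg_left ht1 (by positivity)
        exact le_trans (by linarith) (neg_le_abs _)
    omega
  have hkey : ∀ (e : ℕ) (M x y : ℤ), k ≤ e → 4 * (k : ℤ) ≤ M → (M + 1) ^ e ≤ max |x| |y| →
      ((4 * k + 1 : ℕ) ^ k : ℤ) ≤ |x| ∨ ((4 * k + 1 : ℕ) ^ k : ℤ) ≤ |y| := by
    intro e M x y he hM hle
    have h1 : ((4 * k + 1 : ℕ) ^ k : ℤ) ≤ (M + 1) ^ e := by
      calc ((4 * k + 1 : ℕ) ^ k : ℤ) ≤ (M + 1) ^ k := by
            apply pow_le_pow_left₀ (by positivity)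
            push_cast; linarith
        _ ≤ (M + 1) ^ e := pow_le_pow_right₀ (by linarith) he
    exact le_max_iff.1 (le_trans h1 hle)
  rcases hbig with hb | hb
  · rcases hkey j.natAbs N _ _ hb (by omega) hj with hh | hh
    · refine ⟨Fin.castLE h 2, ?_⟩
      have e := V_le (c (L h 2)) (Fin.castLE h 2)
      rw [x2] at e
      have e2 : (N + 2) * v + y = (v + y) + (N + 1) * v := by ring
      rw [e2] at e
      have := le_trans hh e
      exact_mod_cast this
    · refine ⟨Fin.castLE h 3, ?_⟩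
      have e := V_le (c (L h 3)) (Fin.castLE h 3)
      rw [hY3] at e
      have e2 : v + y - v = y := by ring
      rw [e2] at hh
      have := le_trans hh e
      exact_mod_cast this
  · rcases hkey j'.natAbs (2 * N) _ _ hb (by omega) hj' with hh | hh
    · refine ⟨Fin.castLE h 4, ?_⟩
      have e := V_le (c (L h 4)) (Fin.castLE h 4)
      rw [x4'] at e
      have e2 : (2 * N + 2) * v' + y' = (v' + y') + (2 * N + 1) * v' := by ring
      rw [e2] at e
      have := le_trans hh e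
      exact_mod_cast this
    · refine ⟨Fin.castLE h 5, ?_⟩
      have e := V_le (c (L h 5)) (Fin.castLE h 5)
      rw [hY5] at e
      have e2 : v' + y' - v' = y' := by ring
      rw [e2] at hh
      have := le_trans hh e
      exact_mod_cast this

end Pool.ExpConj
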