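import Mathlib

set_option autoImplicit false

/-!
# The linear algebra: intertwiners of two unipotent/hyperbolic block matrices
-/

namespace Pool.ExpConj

/-- The function on `Fin n`, `6 ≤ n`, with values `w j` at the first six indices and `r i` at
the other ones. -/
def ext {n : ℕ} {β : Type} (w : Fin 6 → β) (r : Fin n → β) (i : Fin n) : β :=
  if hi : i.val < 6 then w ⟨i.val, hi⟩ else r i

theorem ext_lo {n : ℕ} {β : Type} (h : 6 ≤ n) (w : Fin 6 → β) (r : Fin n → β) (j : Fin 6) :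
    ext w r (Fin.castLE h j) = w j := by
  have : (Fin.castLE h j).val < 6 := by simp
  simp [ext]

theorem ext_hi {n : ℕ} {β : Type} (w : Fin 6 → β) (r : Fin n → β) (i : Fin n)
    (hi : 6 ≤ i.val) : ext w r i = r i := by
  simp [ext, Nat.not_lt.2 hi]

theorem cases6 {n : ℕ} (h : 6 ≤ n) {P : Fin n → Prop} (h1 : ∀ j : Fin 6, P (Fin.castLE h j))
    (h2 : ∀ i : Fin n, 6 ≤ i.val → P i) (i : Fin n) : P i := by
  rcases Nat.lt_or_ge i.val 6 with hi | hi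
  · have : i = Fin.castLE h ⟨i.val, hi⟩ := by
      ext; simp
    rw [this]; exact h1 _
  · exact h2 i hi

/-- The matrix of the automorphism: `a ↦ a`, `b ↦ a + b`, `x ↦ (N+2) x + y + b`, `y ↦ -x`,
`x' ↦ (2N+2) x' + y' + b - c a`, `y' ↦ -x'`, `-1` on the other generators. -/
def T {n : ℕ} (h : 6 ≤ n) (N c : ℤ) (v : Fin n → ℤ) : Fin n → ℤ :=
  ext ![v (Fin.castLE h 0) + v (Fin.castLE h 1) - c * v (Fin.castLE h 4),
    v (Fin.castLE h 1) + v (Fin.castLE h 2) + v (Fin.castLE h 4),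
    (N + 2) * v (Fin.castLE h 2) - v (Fin.castLE h 3), v (Fin.castLE h 2),
    (2 * N + 2) * v (Fin.castLE h 4) - v (Fin.castLE h 5), v (Fin.castLE h 4)]
    (fun i => - v i)

/-- The relations between the images `A, B, X, Y, X', Y'` of the six basis vectors under an
intertwiner from `T N c2` to `T N c1`. -/
structure Rel {n : ℕ} (h : 6 ≤ n) (N c1 c2 : ℤ) (A B X Y X' Y' : Fin n → ℤ) : Prop where
  hA : T h N c1 A = A
  hB : T h N c1 B = A + B
  hX : T h N c1 X = (N + 2) • X + Y + B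
  hY : T h N c1 Y = -X
  hX' : T h N c1 X' = (2 * N + 2) • X' + Y' + B - c2 • A
  hY' : T h N c1 Y' = -X'

variable {n : ℕ} {h : 6 ≤ n} {N c1 c2 : ℤ} {A B X Y X' Y' : Fin n → ℤ}

theorem T_at (h : 6 ≤ n) (N c : ℤ) (v w : Fin n → ℤ) (hv : T h N c v = w) :
    v (Fin.castLE h 0) + v (Fin.castLE h 1) - c * v (Fin.castLE h 4) = w (Fin.castLE h 0) ∧
    v (Fin.castLE h 1) + v (Fin.castLE h 2) + v (Fin.castLE h 4) = w (Fin.castLE h 1) ∧
    (N + 2) * v (Fin.castLE h 2) - v (Fin.castLE h 3) = w (Fin.castLE h 2) ∧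
    v (Fin.castLE h 2) = w (Fin.castLE h 3) ∧
    (2 * N + 2) * v (Fin.castLE h 4) - v (Fin.castLE h 5) = w (Fin.castLE h 4) ∧
    v (Fin.castLE h 4) = w (Fin.castLE h 5) ∧
    ∀ i : Fin n, 6 ≤ i.val → - v i = w i := by
  subst hv
  unfold T
  refine ⟨?_, ?_, ?_, ?_, ?_, ?_, ?_⟩
  · rw [ext_lo]; rfl
  · rw [ext_lo]; rfl
  · rw [ext_lo]; rfl
  · rw [ext_lo]; rfl
  · rw [ext_lo]; rfl
  · rw [ext_lo]; rfl
  · intro i hi
    rw [ext_hi _ _ _ hi]

theorem Rel.A_lo (R : Rel h N c1 c2 A B X Y X' Y') (hN : 1 ≤ N) :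
    A (Fin.castLE h 1) = 0 ∧ A (Fin.castLE h 2) = 0 ∧ A (Fin.castLE h 3) = 0 ∧
    A (Fin.castLE h 4) = 0 ∧ A (Fin.castLE h 5) = 0 ∧
    (∀ i : Fin n, 6 ≤ i.val → A i = 0) := by
  obtain ⟨h0, h1, h2, h3, h4, h5, h6⟩ := T_at h N c1 A A R.hA
  have e2 : N * A (Fin.castLE h 2) = 0 := by linear_combination h2 - h3
  have e4 : (2 * N) * A (Fin.castLE h 4) = 0 := by linear_combination h4 - h5
  have a2 : A (Fin.castLE h 2) = 0 := by
    rcases mul_eq_zero.1 e2 with h | h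
    · omega
    · exact h
  have a4 : A (Fin.castLE h 4) = 0 := by
    rcases mul_eq_zero.1 e4 with h | h
    · omega
    · exact h
  have a3 : A (Fin.castLE h 3) = 0 := by rw [← h3, a2]
  have a5 : A (Fin.castLE h 5) = 0 := by rw [← h5, a4]
  have a1 : A (Fin.castLE h 1) = 0 := by
    rw [a4] at h0; linarith
  refine ⟨a1, a2, a3, a4, a5, ?_⟩
  intro i hi
  have := h6 i hi
  omega

theorem Rel.B_lo (R : Rel h N c1 c2 A B X Y X' Y') (hN : 1 ≤ N) :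
    B (Fin.castLE h 1) = A (Fin.castLE h 0) ∧ B (Fin.castLE h 2) = 0 ∧
    B (Fin.castLE h 3) = 0 ∧ B (Fin.castLE h 4) = 0 ∧ B (Fin.castLE h 5) = 0 ∧
    (∀ i : Fin n, 6 ≤ i.val → B i = 0) := by
  obtain ⟨a1, a2, a3, a4, a5, a6⟩ := R.A_lo hN
  obtain ⟨h0, h1, h2, h3, h4, h5, h6⟩ := T_at h N c1 B _ R.hB
  simp only [Pi.add_apply, a1, a2, a3, a4, a5, zero_add] at h0 h1 h2 h3 h4 h5 h6
  have e2 : N * B (Fin.castLE h 2) = 0 := by linear_combination h2 - h3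
  have e4 : (2 * N) * B (Fin.castLE h 4) = 0 := by linear_combination h4 - h5
  have b2 : B (Fin.castLE h 2) = 0 := by
    rcases mul_eq_zero.1 e2 with h | h
    · omega
    · exact h
  have b4 : B (Fin.castLE h 4) = 0 := by
    rcases mul_eq_zero.1 e4 with h | h
    · omega
    · exact h
  have b3 : B (Fin.castLE h 3) = 0 := by rw [← h3, b2]
  have b5 : B (Fin.castLE h 5) = 0 := by rw [← h5, b4]
  have b1 : B (Fin.castLE h 1) = A (Fin.castLE h 0) := by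
    rw [b4] at h0; linarith
  refine ⟨b1, b2, b3, b4, b5, ?_⟩
  intro i hi
  have := h6 i hi
  rw [a6 i hi] at this
  omega

theorem Rel.XY (R : Rel h N c1 c2 A B X Y X' Y') (hN : 1 ≤ N) :
    X (Fin.castLE h 4) = 0 ∧ X (Fin.castLE h 5) = 0 ∧ Y (Fin.castLE h 4) = 0 ∧
    Y (Fin.castLE h 5) = 0 ∧ (∀ i : Fin n, 6 ≤ i.val → X i = 0 ∧ Y i = 0) ∧
    Y (Fin.castLE h 2) = - X (Fin.castLE h 3) ∧
    X (Fin.castLE h 2) = (N + 2) * X (Fin.castLE h 3) + Y (Fin.castLE h 3) ∧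
    (∃ z : ℤ, X (Fin.castLE h 3) = N * z + B (Fin.castLE h 0)) ∧
    (∃ z : ℤ, X (Fin.castLE h 3) + Y (Fin.castLE h 3) = N * z + A (Fin.castLE h 0)) := by
  obtain ⟨b1, b2, b3, b4, b5, b6⟩ := R.B_lo hN
  obtain ⟨x0, x1, x2, x3, x4, x5, x6⟩ := T_at h N c1 X _ R.hX
  obtain ⟨y0, y1, y2, y3, y4, y5, y6⟩ := T_at h N c1 Y _ R.hY
  simp only [Pi.add_apply, Pi.smul_apply, Pi.neg_apply, smul_eq_mul, b1, b2, b3, b4, b5,
    add_zero] at x0 x1 x2 x3 x4 x5 x6 y0 y1 y2 y3 y4 y5 y6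
  have e4 : N * X (Fin.castLE h 4) = 0 := by linear_combination x4 + y5
  have X4 : X (Fin.castLE h 4) = 0 := by
    rcases mul_eq_zero.1 e4 with h | h
    · omega
    · exact h
  rw [X4] at x0 x1 x4 x5 y4
  have e5 : N * X (Fin.castLE h 5) = 0 := by
    linear_combination (2 * N + 2) * y5 - y4 + x5
  have X5 : X (Fin.castLE h 5) = 0 := by
    rcases mul_eq_zero.1 e5 with h | h
    · omega
    · exact h
  rw [X5] at x4 x5 y5
  have Y4 : Y (Fin.castLE h 4) = 0 := by linarith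
  have Y5 : Y (Fin.castLE h 5) = 0 := by linarith
  rw [Y4] at y0 y1
  refine ⟨X4, X5, Y4, Y5, ?_, by linarith, by linarith, ?_, ?_⟩
  · intro i hi
    have e1 := x6 i hi
    have e2 := y6 i hi
    rw [b6 i hi] at e1
    have e3 : (N + 4) * X i = 0 := by linear_combination - e1 + e2
    have e4 : X i = 0 := by
      rcases mul_eq_zero.1 e3 with h | h
      · omega
      · exact h
    exact ⟨e4, by linarith⟩
  · refine ⟨X (Fin.castLE h 0), ?_⟩
    linear_combination x0 + y0 - y1 + y3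
  · refine ⟨X (Fin.castLE h 1) - X (Fin.castLE h 3), ?_⟩
    linear_combination x1 + y1 - x3 - y3
  
theorem Rel.XY' (R : Rel h N 0 c2 A B X Y X' Y') (hN : 1 ≤ N) :
    X' (Fin.castLE h 2) = 0 ∧ X' (Fin.castLE h 3) = 0 ∧ Y' (Fin.castLE h 2) = 0 ∧
    Y' (Fin.castLE h 3) = 0 ∧ (∀ i : Fin n, 6 ≤ i.val → X' i = 0 ∧ Y' i = 0) ∧
    Y' (Fin.castLE h 4) = - X' (Fin.castLE h 5) ∧
    X' (Fin.castLE h 4) = (2 * N + 2) * X' (Fin.castLE h 5) + Y' (Fin.castLE h 5) ∧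
    (∃ z : ℤ, X' (Fin.castLE h 5) = 2 * N * z + B (Fin.castLE h 0) - c2 * A (Fin.castLE h 0)) ∧
    (∃ z : ℤ, X' (Fin.castLE h 5) + Y' (Fin.castLE h 5) = 2 * N * z + A (Fin.castLE h 0)) := by
  obtain ⟨a1, a2, a3, a4, a5, a6⟩ := R.A_lo hN
  obtain ⟨b1, b2, b3, b4, b5, b6⟩ := R.B_lo hN
  obtain ⟨x0, x1, x2, x3, x4, x5, x6⟩ := T_at h N 0 X' _ R.hX'
  obtain ⟨y0, y1, y2, y3, y4, y5, y6⟩ := T_at h N 0 Y' _ R.hY'
  simp only [Pi.add_apply, Pi.smul_apply, Pi.neg_apply, Pi.sub_apply, smul_eq_mul, a1, a2, a3,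
    a4, a5, b1, b2, b3, b4, b5, add_zero, mul_zero, sub_zero,
    zero_mul] at x0 x1 x2 x3 x4 x5 x6 y0 y1 y2 y3 y4 y5 y6
  have e4 : N * X' (Fin.castLE h 2) = 0 := by linear_combination - x2 - y3
  have X4 : X' (Fin.castLE h 2) = 0 := by
    rcases mul_eq_zero.1 e4 with h | h
    · omega
    · exact h
  rw [X4] at x1 x2 x3 y2
  have e5 : N * X' (Fin.castLE h 3) = 0 := by
    linear_combination - ((N + 2) * y3 - y2 + x3)
  have X5 : X' (Fin.castLE h 3) = 0 := by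
    rcases mul_eq_zero.1 e5 with h | h
    · omega
    · exact h
  rw [X5] at x2 x3 y3
  have Y4 : Y' (Fin.castLE h 2) = 0 := by linarith
  have Y5 : Y' (Fin.castLE h 3) = 0 := by linarith
  rw [Y4] at y1
  refine ⟨X4, X5, Y4, Y5, ?_, by linarith, by linarith, ?_, ?_⟩
  · intro i hi
    have e1 := x6 i hi
    have e2 := y6 i hi
    rw [b6 i hi, a6 i hi] at e1
    have e3 : (2 * N + 4) * X' i = 0 := by linear_combination - e1 + e2
    have e4 : X' i = 0 := by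
      rcases mul_eq_zero.1 e3 with h | h
      · omega
      · exact h
    exact ⟨e4, by linarith⟩
  · refine ⟨X' (Fin.castLE h 0), ?_⟩
    linear_combination x0 + y0 - y1 + y5
  · refine ⟨X' (Fin.castLE h 1) - X' (Fin.castLE h 5), ?_⟩
    linear_combination x1 + y1 - x5 - y5

/-- The vanishing part of `Rel.XY'` for all `c1`. -/
theorem Rel.XY0 (R : Rel h N c1 c2 A B X Y X' Y') (hN : 1 ≤ N) :
    X' (Fin.castLE h 2) = 0 ∧ X' (Fin.castLE h 3) = 0 ∧ Y' (Fin.castLE h 2) = 0 ∧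
    Y' (Fin.castLE h 3) = 0 ∧ (∀ i : Fin n, 6 ≤ i.val → X' i = 0 ∧ Y' i = 0) := by
  obtain ⟨a1, a2, a3, a4, a5, a6⟩ := R.A_lo hN
  obtain ⟨b1, b2, b3, b4, b5, b6⟩ := R.B_lo hN
  obtain ⟨x0, x1, x2, x3, x4, x5, x6⟩ := T_at h N c1 X' _ R.hX'
  obtain ⟨y0, y1, y2, y3, y4, y5, y6⟩ := T_at h N c1 Y' _ R.hY'
  simp only [Pi.add_apply, Pi.smul_apply, Pi.neg_apply, Pi.sub_apply, smul_eq_mul, a1, a2, a3,
    a4, a5, b1, b2, b3, b4, b5, add_zero, mul_zero,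
    sub_zero] at x0 x1 x2 x3 x4 x5 x6 y0 y1 y2 y3 y4 y5 y6
  have e4 : N * X' (Fin.castLE h 2) = 0 := by linear_combination - x2 - y3
  have X4 : X' (Fin.castLE h 2) = 0 := by
    rcases mul_eq_zero.1 e4 with h | h
    · omega
    · exact h
  rw [X4] at x2 x3 y2
  have e5 : N * X' (Fin.castLE h 3) = 0 := by
    linear_combination - ((N + 2) * y3 - y2 + x3)
  have X5 : X' (Fin.castLE h 3) = 0 := by
    rcases mul_eq_zero.1 e5 with h | h
    · omega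
    · exact h
  rw [X5] at x2 x3 y3
  have Y4 : Y' (Fin.castLE h 2) = 0 := by linarith
  have Y5 : Y' (Fin.castLE h 3) = 0 := by linarith
  refine ⟨X4, X5, Y4, Y5, ?_⟩
  intro i hi
  have e1 := x6 i hi
  have e2 := y6 i hi
  rw [b6 i hi, a6 i hi] at e1
  have e3 : (2 * N + 4) * X' i = 0 := by linear_combination - e1 + e2
  have e4 : X' i = 0 := by
    rcases mul_eq_zero.1 e3 with h | h
    · omega
    · exact h
  exact ⟨e4, by linarith⟩

end Pool.ExpConj
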