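import Pool.Agent.Work.MP_8d5be4_exp.Pell
import Pool.Agent.Work.MP_8d5be4_exp.Lin

set_option autoImplicit false

/-!
# The automorphisms and their action on the abelianization
-/

namespace Pool.ExpConj

variable {n : ℕ}

/-- The exponent sum of the `i`-th basis element. -/
def ex (i : Fin n) : FreeGroup (Fin n) →* Multiplicative ℤ :=
  FreeGroup.lift fun j => Multiplicative.ofAdd (if j = i then (1 : ℤ) else 0)

/-- The vector of exponent sums. -/
def V (g : FreeGroup (Fin n)) : Fin n → ℤ := fun i => Multiplicative.toAdd (ex i g)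

theorem V_one : V (1 : FreeGroup (Fin n)) = 0 := by
  funext i; simp [V]

theorem V_mul (g h : FreeGroup (Fin n)) : V (g * h) = V g + V h := by
  funext i; simp [V]

theorem V_inv (g : FreeGroup (Fin n)) : V g⁻¹ = - V g := by
  funext i; simp [V]

theorem V_pow (g : FreeGroup (Fin n)) (m : ℕ) : V (g ^ m) = (m : ℤ) • V g := by
  funext i; simp [V]

theorem V_of (i j : Fin n) : V (FreeGroup.of j) i = if j = i then 1 else 0 := by
  simp [V, ex]

theorem V_mk_le (l : List (Fin n × Bool)) (i : Fin n) : |V (FreeGroup.mk l) i| ≤ l.length := by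
  induction l with
  | nil =>
    have : (FreeGroup.mk ([] : List (Fin n × Bool))) = 1 := rfl
    rw [this, V_one]; simp
  | cons a l ih =>
    have e : FreeGroup.mk (a :: l) = FreeGroup.mk [a] * FreeGroup.mk l := by
      rw [FreeGroup.mul_mk]; rfl
    rw [e, V_mul, Pi.add_apply, List.length_cons]
    have h1 : |V (FreeGroup.mk [a]) i| ≤ 1 := by
      obtain ⟨j, b⟩ := a
      cases b with
      | true =>
        have : FreeGroup.mk [(j, true)] = FreeGroup.of j := rfl
        rw [this, V_of]; split_ifs <;> simp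
      | false =>
        have : FreeGroup.mk [(j, false)] = (FreeGroup.of j)⁻¹ := by
          simp [FreeGroup.of, FreeGroup.inv_mk, FreeGroup.invRev]
        rw [this, V_inv, Pi.neg_apply, V_of]; split_ifs <;> simp
    have h2 := abs_add_le (V (FreeGroup.mk [a]) i) (V (FreeGroup.mk l) i)
    push_cast
    linarith

theorem V_le (g : FreeGroup (Fin n)) (i : Fin n) : |V g i| ≤ (FreeGroup.toWord g).length := by
  have := V_mk_le (FreeGroup.toWord g) i
  rwa [FreeGroup.mk_toWord] at this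

theorem V_hom (ψ : FreeGroup (Fin n) →* FreeGroup (Fin n)) (g : FreeGroup (Fin n)) :
    V (ψ g) = ∑ k, V g k • V (ψ (FreeGroup.of k)) := by
  induction g using FreeGroup.induction_on with
  | C1 => simp [V_one]
  | of i =>
    rw [Finset.sum_eq_single i]
    · rw [V_of]; simp
    · intro b _ hb
      rw [V_of, if_neg (fun h => hb h.symm)]; simp
    · intro h; exact absurd (Finset.mem_univ i) h
  | inv_of i hi =>
    rw [map_inv, V_inv, hi, V_inv, ← Finset.sum_neg_distrib]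
    refine Finset.sum_congr rfl fun k _ => ?_
    rw [Pi.neg_apply, neg_smul]
  | mul x y hx hy =>
    rw [map_mul, V_mul, hx, hy, V_mul, ← Finset.sum_add_distrib]
    refine Finset.sum_congr rfl fun k _ => ?_
    rw [Pi.add_apply, add_smul]

/-- The first six basis elements. -/
def L (h : 6 ≤ n) (j : Fin 6) : FreeGroup (Fin n) := FreeGroup.of (Fin.castLE h j)

/-- The endomorphism with given images. -/
def hom (w : Fin 6 → FreeGroup (Fin n)) (r : Fin n → FreeGroup (Fin n)) :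
    FreeGroup (Fin n) →* FreeGroup (Fin n) := FreeGroup.lift (ext w r)

theorem hom_L (h : 6 ≤ n) (w : Fin 6 → FreeGroup (Fin n)) (r : Fin n → FreeGroup (Fin n))
    (j : Fin 6) : hom w r (L h j) = w j := by
  simp [hom, L, ext_lo h w r j]

theorem hom_hi (w : Fin 6 → FreeGroup (Fin n)) (r : Fin n → FreeGroup (Fin n))
    (i : Fin n) (hi : 6 ≤ i.val) : hom w r (FreeGroup.of i) = r i := by
  simp [hom, ext_hi w r i hi]

theorem hom_ext6 (h : 6 ≤ n) (f g : FreeGroup (Fin n) →* FreeGroup (Fin n))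
    (h1 : ∀ j : Fin 6, f (L h j) = g (L h j))
    (h2 : ∀ i : Fin n, 6 ≤ i.val → f (FreeGroup.of i) = g (FreeGroup.of i)) : f = g := by
  refine FreeGroup.ext_hom _ _ fun i => ?_
  exact cases6 h (P := fun i => f (FreeGroup.of i) = g (FreeGroup.of i)) h1 h2 i

theorem aut_ext6 (h : 6 ≤ n) (f g : MulAut (FreeGroup (Fin n)))
    (h1 : ∀ j : Fin 6, f (L h j) = g (L h j))
    (h2 : ∀ i : Fin n, 6 ≤ i.val → f (FreeGroup.of i) = g (FreeGroup.of i)) : f = g := by
  have := hom_ext6 h f.toMonoidHom g.toMonoidHom h1 h2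
  ext x
  exact DFunLike.congr_fun this x

/-- `θ`: `b ↦ b a`, `x ↦ x^(N+2) y b`, `y ↦ x⁻¹`, the other basis elements fixed. -/
def thW (h : 6 ≤ n) (N : ℕ) : Fin 6 → FreeGroup (Fin n) :=
  ![L h 0, L h 1 * L h 0, L h 2 ^ (N + 2) * L h 3 * L h 1, (L h 2)⁻¹, L h 4, L h 5]

def thI (h : 6 ≤ n) (N : ℕ) : Fin 6 → FreeGroup (Fin n) :=
  ![L h 0, L h 1 * (L h 0)⁻¹, (L h 3)⁻¹, L h 3 ^ (N + 2) * L h 2 * L h 0 * (L h 1)⁻¹,
    L h 4, L h 5]

/-- `η_c`: `x' ↦ x'^(2N+2) y' b a^(-c)`, `y' ↦ x'⁻¹`, `a, b, x, y` fixed, the other basis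
elements inverted. -/
def etW (h : 6 ≤ n) (N c : ℕ) : Fin 6 → FreeGroup (Fin n) :=
  ![L h 0, L h 1, L h 2, L h 3, L h 4 ^ (2 * N + 2) * L h 5 * L h 1 * (L h 0)⁻¹ ^ c, (L h 4)⁻¹]

def etI (h : 6 ≤ n) (N c : ℕ) : Fin 6 → FreeGroup (Fin n) :=
  ![L h 0, L h 1, L h 2, L h 3, (L h 5)⁻¹, L h 5 ^ (2 * N + 2) * L h 4 * L h 0 ^ c * (L h 1)⁻¹]

def theta (h : 6 ≤ n) (N : ℕ) : MulAut (FreeGroup (Fin n)) :=
  MonoidHom.toMulEquiv (hom (thW h N) FreeGroup.of) (hom (thI h N) FreeGroup.of)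
    (by
      refine hom_ext6 h _ _ ?_ ?_
      · intro j
        fin_cases j <;> simp [hom_L, thW, thI, mul_assoc]
      · intro i hi
        simp [hom_hi _ _ i hi])
    (by
      refine hom_ext6 h _ _ ?_ ?_
      · intro j
        fin_cases j <;> simp [hom_L, thW, thI, mul_assoc]
      · intro i hi
        simp [hom_hi _ _ i hi])

def eta (h : 6 ≤ n) (N c : ℕ) : MulAut (FreeGroup (Fin n)) :=
  MonoidHom.toMulEquiv (hom (etW h N c) fun i => (FreeGroup.of i)⁻¹)
    (hom (etI h N c) fun i => (FreeGroup.of i)⁻¹)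
    (by
      refine hom_ext6 h _ _ ?_ ?_
      · intro j
        fin_cases j <;> simp [hom_L, etW, etI, mul_assoc]
      · intro i hi
        simp [hom_hi _ _ i hi])
    (by
      refine hom_ext6 h _ _ ?_ ?_
      · intro j
        fin_cases j <;> simp [hom_L, etW, etI, mul_assoc]
      · intro i hi
        simp [hom_hi _ _ i hi])

theorem theta_L (h : 6 ≤ n) (N : ℕ) (j : Fin 6) : theta h N (L h j) = thW h N j :=
  hom_L h _ _ j

theorem theta_hi (h : 6 ≤ n) (N : ℕ) (i : Fin n) (hi : 6 ≤ i.val) :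
    theta h N (FreeGroup.of i) = FreeGroup.of i := hom_hi _ _ i hi

theorem eta_L (h : 6 ≤ n) (N c : ℕ) (j : Fin 6) : eta h N c (L h j) = etW h N c j :=
  hom_L h _ _ j

theorem eta_hi (h : 6 ≤ n) (N c : ℕ) (i : Fin n) (hi : 6 ≤ i.val) :
    eta h N c (FreeGroup.of i) = (FreeGroup.of i)⁻¹ := hom_hi _ _ i hi

theorem eta_theta (h : 6 ≤ n) (N c : ℕ) :
    eta h N c * theta h N = theta h N * eta h N (c + 1) := by
  refine aut_ext6 h _ _ ?_ ?_
  · intro j
    rw [MulAut.mul_apply, MulAut.mul_apply, theta_L, eta_L]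
    fin_cases j <;> simp [thW, etW, theta_L, eta_L, mul_assoc, pow_succ']
  · intro i hi
    rw [MulAut.mul_apply, MulAut.mul_apply, theta_hi h N i hi, eta_hi h N _ i hi,
      eta_hi h N _ i hi, map_inv, theta_hi h N i hi]

/-- The automorphism `α_c = θ η_(c+1)`. -/
def al (h : 6 ≤ n) (N c : ℕ) : MulAut (FreeGroup (Fin n)) := theta h N * eta h N (c + 1)

theorem al_conj (h : 6 ≤ n) (N c : ℕ) :
    (theta h N ^ c)⁻¹ * al h N 0 * theta h N ^ c = al h N c := by
  induction c with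
  | zero => simp
  | succ c ih =>
    have e : (theta h N ^ (c + 1))⁻¹ * al h N 0 * theta h N ^ (c + 1)
        = (theta h N)⁻¹ * ((theta h N ^ c)⁻¹ * al h N 0 * theta h N ^ c) * theta h N := by
      rw [pow_succ]; group
    rw [e, ih, al, al, mul_assoc, mul_assoc, eta_theta]
    group

theorem al_L (h : 6 ≤ n) (N c : ℕ) (j : Fin 6) : al h N c (L h j) =
    ![L h 0, L h 1 * L h 0, L h 2 ^ (N + 2) * L h 3 * L h 1, (L h 2)⁻¹,
      L h 4 ^ (2 * N + 2) * L h 5 * L h 1 * (L h 0)⁻¹ ^ c, (L h 4)⁻¹] j := by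
  rw [al, MulAut.mul_apply, eta_L]
  fin_cases j <;> simp [thW, etW, theta_L, mul_assoc, pow_succ']

theorem al_hi (h : 6 ≤ n) (N c : ℕ) (i : Fin n) (hi : 6 ≤ i.val) :
    al h N c (FreeGroup.of i) = (FreeGroup.of i)⁻¹ := by
  rw [al, MulAut.mul_apply, eta_hi h N _ i hi, map_inv, theta_hi h N i hi]

end Pool.ExpConj
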