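import Pool.Agent.Work.MP_8d5be4_exp.Free

set_option autoImplicit false

/-!
# The lower bound
-/

namespace Pool.ExpConj

variable {n : ℕ}

theorem V_L_lo (h : 6 ≤ n) (j k : Fin 6) :
    V (L h j) (Fin.castLE h k) = if j = k then 1 else 0 := by
  rw [L, V_of]
  simp only [Fin.castLE_inj]

theorem V_L_hi (h : 6 ≤ n) (j : Fin 6) (i : Fin n) (hi : 6 ≤ i.val) : V (L h j) i = 0 := by
  rw [L, V_of, if_neg]
  intro e
  have : (Fin.castLE h j).val = i.val := by rw [e]
  simp at this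
  omega

theorem V_hi_lo (h : 6 ≤ n) (i : Fin n) (hi : 6 ≤ i.val) (k : Fin 6) :
    V (FreeGroup.of i) (Fin.castLE h k) = 0 := by
  rw [V_of, if_neg]
  intro e
  have : (Fin.castLE h k).val = i.val := by rw [← e]
  simp at this
  omega

theorem T_lo (h : 6 ≤ n) (N c : ℤ) (v : Fin n → ℤ) (j : Fin 6) : T h N c v (Fin.castLE h j) =
    ![v (Fin.castLE h 0) + v (Fin.castLE h 1) - c * v (Fin.castLE h 4),
    v (Fin.castLE h 1) + v (Fin.castLE h 2) + v (Fin.castLE h 4),
    (N + 2) * v (Fin.castLE h 2) - v (Fin.castLE h 3), v (Fin.castLE h 2),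
    (2 * N + 2) * v (Fin.castLE h 4) - v (Fin.castLE h 5), v (Fin.castLE h 4)] j := by
  rw [T, ext_lo]

theorem T_hi (h : 6 ≤ n) (N c : ℤ) (v : Fin n → ℤ) (i : Fin n) (hi : 6 ≤ i.val) :
    T h N c v i = - v i := by
  rw [T, ext_hi _ _ _ hi]

theorem T_add (h : 6 ≤ n) (N c : ℤ) (v w : Fin n → ℤ) :
    T h N c (v + w) = T h N c v + T h N c w := by
  funext i
  refine cases6 h (P := fun i => T h N c (v + w) i = (T h N c v + T h N c w) i) ?_ ?_ i
  · intro j
    rw [Pi.add_apply, T_lo, T_lo, T_lo]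
    fin_cases j <;> simp <;> ring
  · intro i hi
    rw [Pi.add_apply, T_hi h _ _ _ i hi, T_hi h _ _ _ i hi, T_hi h _ _ _ i hi, Pi.add_apply]
    ring

theorem T_neg (h : 6 ≤ n) (N c : ℤ) (v : Fin n → ℤ) : T h N c (-v) = - T h N c v := by
  funext i
  refine cases6 h (P := fun i => T h N c (-v) i = (- T h N c v) i) ?_ ?_ i
  · intro j
    rw [Pi.neg_apply, T_lo, T_lo]
    fin_cases j <;> simp <;> ring
  · intro i hi
    rw [Pi.neg_apply, T_hi h _ _ _ i hi, T_hi h _ _ _ i hi, Pi.neg_apply]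

theorem T_zero (h : 6 ≤ n) (N c : ℤ) : T h N c (0 : Fin n → ℤ) = 0 := by
  have := T_add h N c 0 0
  rw [add_zero] at this
  exact left_eq_add.1 this

theorem V_al (h : 6 ≤ n) (N c : ℕ) (g : FreeGroup (Fin n)) :
    V (al h N c g) = T h N c (V g) := by
  induction g using FreeGroup.induction_on with
  | C1 => rw [map_one, V_one, T_zero]
  | of i =>
    refine cases6 h (P := fun i => V (al h N c (FreeGroup.of i)) =
      T h N c (V (FreeGroup.of i))) ?_ ?_ i
    · intro j
      change V (al h N c (L h j)) = T h N c (V (L h j))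
      rw [al_L]
      funext i
      refine cases6 h (P := fun i => V (![L h 0, L h 1 * L h 0,
        L h 2 ^ (N + 2) * L h 3 * L h 1, (L h 2)⁻¹,
        L h 4 ^ (2 * N + 2) * L h 5 * L h 1 * (L h 0)⁻¹ ^ c, (L h 4)⁻¹] j) i =
        T h N c (V (L h j)) i) ?_ ?_ i
      · intro k
        rw [T_lo]
        fin_cases j <;> fin_cases k <;> simp [V_mul, V_pow, V_inv, V_L_lo]
      · intro i hi
        rw [T_hi h _ _ _ i hi]
        fin_cases j <;> simp [V_mul, V_pow, V_inv, V_L_hi h _ i hi]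
    · intro i hi
      rw [al_hi h N c i hi, V_inv]
      funext i'
      refine cases6 h (P := fun i' => (- V (FreeGroup.of i)) i' =
        T h N c (V (FreeGroup.of i)) i') ?_ ?_ i'
      · intro k
        rw [T_lo, Pi.neg_apply, V_hi_lo h i hi]
        fin_cases k <;> simp [V_hi_lo h i hi]
      · intro i' hi'
        rw [T_hi h _ _ _ i' hi', Pi.neg_apply]
  | inv_of i hi => rw [map_inv, V_inv, hi, V_inv, T_neg]
  | mul x y hx hy => rw [map_mul, V_mul, hx, hy, V_mul, T_add]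

/-- The relations for an intertwiner. -/
theorem rel_of (h : 6 ≤ n) (N c1 c2 : ℕ) (γ : MulAut (FreeGroup (Fin n)))
    (hγ : ∀ w, V (al h N c1 (γ w)) = V (γ (al h N c2 w))) :
    Rel h N c1 c2 (V (γ (L h 0))) (V (γ (L h 1))) (V (γ (L h 2))) (V (γ (L h 3)))
      (V (γ (L h 4))) (V (γ (L h 5))) := by
  have H : ∀ j : Fin 6, T h N c1 (V (γ (L h j))) = V (γ (al h N c2 (L h j))) := by
    intro j
    rw [← V_al, hγ]
  constructor
  · rw [H, al_L]; simp
  · rw [H, al_L]; simp [V_mul, add_comm]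
  · rw [H, al_L]; simp [V_mul, V_pow]
  · rw [H, al_L]; simp [V_inv]
  · rw [H, al_L]; simp [V_mul, V_pow, V_inv]; abel
  · rw [H, al_L]; simp [V_inv]

end Pool.ExpConj
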