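import Mathlib

set_option autoImplicit false

/-!
# Units of `ℤ[ε]`, `ε² - (M+2) ε + 1 = 0`, written as `u + v (ε - 1)`

The norm form is `u² + M u v - M v²`. Every unit is `± ε^j`; we only need `u ≡ ±1`,
`v ≡ ± j` modulo `M` and the growth of the coefficients.
-/

namespace Pool.ExpConj

theorem chain_pos (M : ℤ) (hM : 3 ≤ M) : ∀ (n : ℕ) (u v : ℤ), v.toNat = n → 1 ≤ u → 0 ≤ v →
    (u ^ 2 + M * u * v - M * v ^ 2 = 1 ∨ u ^ 2 + M * u * v - M * v ^ 2 = -1) →
    ∃ t : ℕ, M ∣ u - 1 ∧ M ∣ v - t ∧ (M + 1) ^ t ≤ u + M * v := by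
  intro n
  induction n using Nat.strong_induction_on with
  | _ n ih =>
    intro u v hn hu hv hQ
    rcases Int.le_iff_lt_or_eq.1 hv with hv' | hv'
    · -- `v ≥ 1`
      have hv1 : 1 ≤ v := hv'
      have hd : 0 ≤ v - u := by
        by_contra hcon
        have h1 : 1 ≤ u - v := by omega
        have h2 : M * v * 1 ≤ M * v * (u - v) := by
          apply mul_le_mul_of_nonneg_left h1
          positivity
        have h3 : 3 ≤ M * v := by nlinarith
        rcases hQ with hQ | hQ <;> nlinarith
      have hu' : 1 ≤ u - M * (v - u) := by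
        by_contra hcon
        have h1 : u ≤ M * (v - u) := by omega
        rcases Int.le_iff_lt_or_eq.1 hd with hd1 | hd1
        · have hd2 : 1 ≤ v - u := hd1
          have h2 : v * u ≤ v * (M * (v - u)) := mul_le_mul_of_nonneg_left h1 hv
          have h3 : u * (v - u) ≤ 1 := by
            rcases hQ with hQ | hQ <;> nlinarith
          have h4 : u ≤ 1 := by nlinarith
          have h5 : v - u ≤ 1 := by nlinarith
          have hu1 : u = 1 := le_antisymm h4 hu
          have hv2 : v = 2 := by omega
          subst hu1 hv2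
          rcases hQ with hQ | hQ <;> omega
        · rw [← hd1] at h1
          omega
      have hlt : (v - u).toNat < n := by
        omega
      obtain ⟨t, h1, h2, h3⟩ := ih (v - u).toNat hlt (u - M * (v - u)) (v - u) rfl hu' hd (by
        rcases hQ with hQ | hQ
        · left; linear_combination hQ
        · right; linear_combination hQ)
      refine ⟨t + 1, ?_, ?_, ?_⟩
      · obtain ⟨c, hc⟩ := h1
        exact ⟨c + (v - u), by linear_combination hc⟩
      · obtain ⟨c, hc⟩ := h2
        obtain ⟨c', hc'⟩ := h1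
        refine ⟨c + c' + (v - u), ?_⟩
        push_cast
        linear_combination hc + hc'
      · have h4 : u = (u - M * (v - u)) + M * (v - u) := by ring
        have h5 : (M + 1) ^ t ≤ u := by linarith
        calc (M + 1) ^ (t + 1) = (M + 1) ^ t * (M + 1) := pow_succ _ _
          _ ≤ u * (M + 1) := mul_le_mul_of_nonneg_right h5 (by omega)
          _ ≤ u + M * v := by nlinarith
    · subst hv'
      have hu1 : u = 1 := by
        rcases hQ with hQ | hQ <;> nlinarith
      subst hu1
      exact ⟨0, by simp, by simp, by simp⟩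

theorem chain_neg (M : ℤ) (hM : 3 ≤ M) : ∀ (n : ℕ) (u w : ℤ), w.toNat = n → 1 ≤ u → 0 ≤ w →
    (u ^ 2 - M * u * w - M * w ^ 2 = 1 ∨ u ^ 2 - M * u * w - M * w ^ 2 = -1) →
    ∃ t : ℕ, M ∣ u - 1 ∧ M ∣ w - t ∧ (M + 1) ^ t ≤ u := by
  intro n
  induction n using Nat.strong_induction_on with
  | _ n ih =>
    intro u w hn hu hw hQ
    rcases Int.le_iff_lt_or_eq.1 hw with hw' | hw'
    · have hw1 : 1 ≤ w := hw'
      have hu' : 1 ≤ u - M * w := by
        by_contra hcon
        have h1 : u - M * w ≤ 0 := by omega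
        have h2 : u * (u - M * w) ≤ 0 := mul_nonpos_of_nonneg_of_nonpos (by omega) h1
        have h3 : 3 ≤ M * w ^ 2 := by nlinarith
        rcases hQ with hQ | hQ <;> nlinarith
      have hw2 : 0 ≤ (M + 1) * w - u := by
        by_contra hcon
        have h1 : (M + 1) * w + 1 ≤ u := by omega
        have h2 : w + 1 ≤ u - M * w := by linarith
        have h3 : ((M + 1) * w + 1) * (w + 1) ≤ u * (u - M * w) := by
          apply mul_le_mul h1 h2 (by omega) (by omega)
        rcases hQ with hQ | hQ <;> nlinarith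
      have hlt : ((M + 1) * w - u).toNat < n := by
        have : (M + 1) * w - u < w := by linarith
        omega
      obtain ⟨t, h1, h2, h3⟩ := ih ((M + 1) * w - u).toNat hlt (u - M * w) ((M + 1) * w - u) rfl
        hu' hw2 (by
        rcases hQ with hQ | hQ
        · left; linear_combination hQ
        · right; linear_combination hQ)
      refine ⟨t + 1, ?_, ?_, ?_⟩
      · obtain ⟨c, hc⟩ := h1
        exact ⟨c + w, by linear_combination hc⟩
      · obtain ⟨c, hc⟩ := h2
        obtain ⟨c', hc'⟩ := h1
        refine ⟨c + c', ?_⟩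
        push_cast
        linear_combination hc + hc'
      · have h5 : (M + 1) * (u - M * w) ≤ u := by nlinarith
        calc (M + 1) ^ (t + 1) = (M + 1) * (M + 1) ^ t := pow_succ' _ _
          _ ≤ (M + 1) * (u - M * w) := mul_le_mul_of_nonneg_left h3 (by omega)
          _ ≤ u := h5
    · subst hw'
      have hu1 : u = 1 := by
        rcases hQ with hQ | hQ <;> nlinarith
      subst hu1
      exact ⟨0, by simp, by simp, by simp⟩

/-- Every solution of `u² + M u v - M v² = ±1` is `± ε^j`: the residues modulo `M` and the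
size of the diagonal entries `u + (M+1) v`, `u - v` of the corresponding matrix. -/
theorem pell (M : ℤ) (hM : 3 ≤ M) (u v : ℤ)
    (hQ : u ^ 2 + M * u * v - M * v ^ 2 = 1 ∨ u ^ 2 + M * u * v - M * v ^ 2 = -1) :
    ∃ s j : ℤ, (s = 1 ∨ s = -1) ∧ M ∣ u - s ∧ M ∣ v - s * j ∧
      (M + 1) ^ j.natAbs ≤ max |u + (M + 1) * v| |u - v| := by
  -- the case `u ≥ 1`
  have key : ∀ u v : ℤ, 1 ≤ u →
      (u ^ 2 + M * u * v - M * v ^ 2 = 1 ∨ u ^ 2 + M * u * v - M * v ^ 2 = -1) →
      ∃ j : ℤ, M ∣ u - 1 ∧ M ∣ v - j ∧
        (M + 1) ^ j.natAbs ≤ max |u + (M + 1) * v| |u - v| := by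
    intro u v hu hQ
    rcases le_total 0 v with hv | hv
    · obtain ⟨t, h1, h2, h3⟩ := chain_pos M hM _ u v rfl hu hv hQ
      refine ⟨t, h1, h2, ?_⟩
      apply le_max_of_le_left
      rw [Int.natAbs_natCast]
      have : u + M * v ≤ u + (M + 1) * v := by nlinarith
      exact le_trans (le_trans h3 this) (le_abs_self _)
    · obtain ⟨t, h1, h2, h3⟩ := chain_neg M hM _ u (-v) rfl hu (by omega) (by
        rcases hQ with hQ | hQ
        · left; linear_combination hQ
        · right; linear_combination hQ)
      refine ⟨-t, h1, ?_, ?_⟩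
      · have : v - -(t : ℤ) = -(-v - t) := by ring
        rw [this]
        exact (dvd_neg).2 h2
      · apply le_max_of_le_right
        rw [Int.natAbs_neg, Int.natAbs_natCast]
        have : u ≤ u - v := by omega
        exact le_trans (le_trans h3 this) (le_abs_self _)
  rcases lt_trichotomy u 0 with hu | hu | hu
  · obtain ⟨j, h1, h2, h3⟩ := key (-u) (-v) (by omega) (by
      rcases hQ with hQ | hQ
      · left; linear_combination hQ
      · right; linear_combination hQ)
    refine ⟨-1, j, Or.inr rfl, ?_, ?_, ?_⟩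
    · have : u - -1 = -(-u - 1) := by ring
      rw [this]; exact (dvd_neg).2 h1
    · have : v - -1 * j = -(-v - j) := by ring
      rw [this]; exact (dvd_neg).2 h2
    · have e1 : -u + (M + 1) * -v = -(u + (M + 1) * v) := by ring
      have e2 : -u - -v = -(u - v) := by ring
      rw [e1, e2, abs_neg, abs_neg] at h3
      exact h3
  · exfalso
    subst hu
    have h0 : M * v ^ 2 = 1 ∨ M * v ^ 2 = -1 := by
      rcases hQ with hQ | hQ
      · right; linarith
      · left; linarith
    rcases h0 with h | h
    · have hd : M ∣ 1 := ⟨v ^ 2, h.symm⟩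
      have := Int.le_of_dvd one_pos hd
      omega
    · have : 0 ≤ M * v ^ 2 := by positivity
      omega
  · obtain ⟨j, h1, h2, h3⟩ := key u v hu hQ
    exact ⟨1, j, Or.inl rfl, h1, by simpa using h2, h3⟩

end Pool.ExpConj
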